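import Pool.Agent.U815.CB.Defs

set_option autoImplicit false

open scoped NNReal
open Filter Topology

namespace Pool.Agent.U815.CB

variable {H : Type*} [NormedAddCommGroup H] [InnerProductSpace ℂ H]

/-- families of contractions -/
def Ctr (T : ℝ≥0 → H →L[ℂ] H) : Prop := ∀ t, ‖T t‖ ≤ 1

theorem inner_bd {T S : ℝ≥0 → H →L[ℂ] H} (hT : Ctr T) (hS : Ctr S) (y z : H) (t : ℝ≥0) :
    ‖inner ℂ ((T t - S t) y) z‖ ≤ 2 * (‖y‖ * ‖z‖) := by
  have h1 : ‖(T t - S t) y‖ ≤ 2 * ‖y‖ := by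
    refine (ContinuousLinearMap.le_opNorm _ _).trans ?_
    refine mul_le_mul_of_nonneg_right ?_ (norm_nonneg _)
    have := norm_sub_le (T t) (S t)
    linarith [hT t, hS t]
  calc ‖inner ℂ ((T t - S t) y) z‖ ≤ ‖(T t - S t) y‖ * ‖z‖ := norm_inner_le_norm _ _
    _ ≤ 2 * ‖y‖ * ‖z‖ := mul_le_mul_of_nonneg_right h1 (norm_nonneg _)
    _ = 2 * (‖y‖ * ‖z‖) := by ring

theorem bdd {T S : ℝ≥0 → H →L[ℂ] H} (hT : Ctr T) (hS : Ctr S) (n : ℕ) (y z : H) :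
    BddAbove (Set.range fun t : {t : ℝ≥0 // t ≤ n + 1} => ‖inner ℂ ((T t - S t) y) z‖) := by
  refine ⟨2 * (‖y‖ * ‖z‖), ?_⟩
  rintro _ ⟨t, rfl⟩
  exact inner_bd hT hS y z t

instance (n : ℕ) : Nonempty {t : ℝ≥0 // t ≤ n + 1} := ⟨⟨0, by positivity⟩⟩

theorem le_sup {T S : ℝ≥0 → H →L[ℂ] H} (hT : Ctr T) (hS : Ctr S) {n : ℕ} (y z : H) {t : ℝ≥0}
    (ht : t ≤ n + 1) : ‖inner ℂ ((T t - S t) y) z‖ ≤ supInner n y z T S :=
  le_ciSup (bdd hT hS n y z) (⟨t, ht⟩ : {t : ℝ≥0 // t ≤ n + 1})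

theorem sup_le {T S : ℝ≥0 → H →L[ℂ] H} {n : ℕ} {y z : H} {c : ℝ}
    (h : ∀ t : ℝ≥0, t ≤ n + 1 → ‖inner ℂ ((T t - S t) y) z‖ ≤ c) : supInner n y z T S ≤ c :=
  ciSup_le fun t => h t.1 t.2

theorem sup_nonneg (T S : ℝ≥0 → H →L[ℂ] H) (n : ℕ) (y z : H) : 0 ≤ supInner n y z T S :=
  Real.iSup_nonneg fun _ => norm_nonneg _

theorem sup_bd {T S : ℝ≥0 → H →L[ℂ] H} (hT : Ctr T) (hS : Ctr S) (n : ℕ) (y z : H) :
    supInner n y z T S ≤ 2 * (‖y‖ * ‖z‖) :=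
  sup_le fun t _ => inner_bd hT hS y z t

theorem sup_self (T : ℝ≥0 → H →L[ℂ] H) (n : ℕ) (y z : H) : supInner n y z T T = 0 := by
  refine le_antisymm (sup_le fun t _ => ?_) (sup_nonneg _ _ _ _ _)
  simp

theorem sup_comm (T S : ℝ≥0 → H →L[ℂ] H) (n : ℕ) (y z : H) :
    supInner n y z T S = supInner n y z S T := by
  unfold supInner
  congr 1
  funext t
  rw [← neg_sub, ContinuousLinearMap.neg_apply, inner_neg_left, norm_neg]

theorem sup_tri {T S R : ℝ≥0 → H →L[ℂ] H} (hT : Ctr T) (hS : Ctr S) (hR : Ctr R) (n : ℕ)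
    (y z : H) : supInner n y z T R ≤ supInner n y z T S + supInner n y z S R := by
  refine sup_le fun t ht => ?_
  have h : inner ℂ ((T t - R t) y) z = inner ℂ ((T t - S t) y) z + inner ℂ ((S t - R t) y) z := by
    rw [← inner_add_left]
    congr 1
    simp
  rw [h]
  exact (norm_add_le _ _).trans (add_le_add (le_sup hT hS y z ht) (le_sup hS hR y z ht))

/-- the terms of the series -/
noncomputable def trm (x : ℕ → H) (T S : ℝ≥0 → H →L[ℂ] H) (k : ℕ × ℕ × ℕ) : ℝ :=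
  (1 / 2 : ℝ) ^ ((k.2.1 + 1) + (k.2.2 + 1) + (k.1 + 1)) *
    (supInner k.1 (x k.2.1) (x k.2.2) T S / (‖x k.2.1‖ * ‖x k.2.2‖))

theorem dd_eq (x : ℕ → H) (T S : ℝ≥0 → H →L[ℂ] H) : dd x T S = ∑' k, trm x T S k := rfl

theorem trm_nonneg (x : ℕ → H) (T S : ℝ≥0 → H →L[ℂ] H) (k : ℕ × ℕ × ℕ) : 0 ≤ trm x T S k := by
  unfold trm
  have := sup_nonneg T S k.1 (x k.2.1) (x k.2.2)
  positivity

/-- the dominating series -/
noncomputable def bnd (k : ℕ × ℕ × ℕ) : ℝ :=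
  (1 / 2 : ℝ) ^ ((k.2.1 + 1) + (k.2.2 + 1) + (k.1 + 1)) * 2

theorem trm_le (x : ℕ → H) {T S : ℝ≥0 → H →L[ℂ] H} (hT : Ctr T) (hS : Ctr S) (k : ℕ × ℕ × ℕ) :
    trm x T S k ≤ bnd k := by
  unfold trm bnd
  refine mul_le_mul_of_nonneg_left ?_ (by positivity)
  refine div_le_of_le_mul₀ (by positivity) (by norm_num) ?_
  exact sup_bd hT hS _ _ _

theorem bnd_summable : Summable bnd := by
  have h : Summable fun n : ℕ => (1 / 2 : ℝ) ^ n := summable_geometric_two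
  have h2 : Summable fun k : ℕ × ℕ => (1 / 2 : ℝ) ^ k.1 * (1 / 2 : ℝ) ^ k.2 :=
    h.mul_of_nonneg h (fun _ => by positivity) (fun _ => by positivity)
  have h3 : Summable fun k : ℕ × ℕ × ℕ => (1 / 2 : ℝ) ^ k.1 * ((1 / 2 : ℝ) ^ k.2.1 *
      (1 / 2 : ℝ) ^ k.2.2) :=
    h.mul_of_nonneg h2 (fun _ => by positivity) (fun _ => by positivity)
  have h4 := h3.mul_left (1 / 4 : ℝ)
  refine h4.congr fun k => ?_
  unfold bnd
  rw [pow_add, pow_add, pow_succ, pow_succ, pow_succ]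
  ring

theorem trm_summable (x : ℕ → H) {T S : ℝ≥0 → H →L[ℂ] H} (hT : Ctr T) (hS : Ctr S) :
    Summable (trm x T S) :=
  Summable.of_nonneg_of_le (trm_nonneg x T S) (trm_le x hT hS) bnd_summable

theorem dd_nonneg (x : ℕ → H) (T S : ℝ≥0 → H →L[ℂ] H) : 0 ≤ dd x T S :=
  tsum_nonneg (trm_nonneg x T S)

theorem dd_self (x : ℕ → H) (T : ℝ≥0 → H →L[ℂ] H) : dd x T T = 0 := by
  rw [dd_eq]
  have : trm x T T = fun _ => 0 := by
    funext k
    unfold trm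
    rw [sup_self]
    simp
  rw [this, tsum_zero]

theorem dd_comm (x : ℕ → H) (T S : ℝ≥0 → H →L[ℂ] H) : dd x T S = dd x S T := by
  rw [dd_eq, dd_eq]
  congr 1
  funext k
  unfold trm
  rw [sup_comm]

theorem dd_tri (x : ℕ → H) {T S R : ℝ≥0 → H →L[ℂ] H} (hT : Ctr T) (hS : Ctr S) (hR : Ctr R) :
    dd x T R ≤ dd x T S + dd x S R := by
  rw [dd_eq, dd_eq, dd_eq, ← (trm_summable x hT hS).tsum_add (trm_summable x hS hR)]
  refine (trm_summable x hT hR).tsum_le_tsum (fun k => ?_)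
    ((trm_summable x hT hS).add (trm_summable x hS hR))
  unfold trm
  rw [← mul_add, ← add_div]
  refine mul_le_mul_of_nonneg_left ?_ (by positivity)
  exact div_le_div_of_nonneg_right (sup_tri hT hS hR _ _ _) (by positivity)

/-- the constant which bounds a supremum by the distance -/
noncomputable def cst (x : ℕ → H) (n i j : ℕ) : ℝ :=
  ‖x i‖ * ‖x j‖ * 2 ^ ((i + 1) + (j + 1) + (n + 1))

theorem cst_pos {x : ℕ → H} (hx : ∀ i, x i ≠ 0) (n i j : ℕ) : 0 < cst x n i j := by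
  have := norm_pos_iff.2 (hx i)
  have := norm_pos_iff.2 (hx j)
  unfold cst
  positivity

theorem sup_le_dd {x : ℕ → H} (hx : ∀ i, x i ≠ 0) {T S : ℝ≥0 → H →L[ℂ] H} (hT : Ctr T)
    (hS : Ctr S) (n i j : ℕ) : supInner n (x i) (x j) T S ≤ cst x n i j * dd x T S := by
  have h : trm x T S (n, i, j) ≤ dd x T S :=
    (trm_summable x hT hS).le_tsum _ fun k _ => trm_nonneg x T S k
  have hi := norm_pos_iff.2 (hx i)
  have hj := norm_pos_iff.2 (hx j)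
  have e : supInner n (x i) (x j) T S = cst x n i j * trm x T S (n, i, j) := by
    unfold cst trm
    simp only
    rw [one_div, inv_pow]
    field_simp
  rw [e]
  exact mul_le_mul_of_nonneg_left h (cst_pos hx n i j).le

theorem tendsto_dd (x : ℕ → H) {T : ℕ → ℝ≥0 → H →L[ℂ] H} {S : ℝ≥0 → H →L[ℂ] H}
    (hT : ∀ m, Ctr (T m)) (hS : Ctr S)
    (h : ∀ n i j, Tendsto (fun m => supInner n (x i) (x j) (T m) S) atTop (𝓝 0)) :
    Tendsto (fun m => dd x (T m) S) atTop (𝓝 0) := by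
  have h0 : Tendsto (fun m => ∑' k, trm x (T m) S k) atTop (𝓝 (∑' _ : ℕ × ℕ × ℕ, (0 : ℝ))) := by
    refine tendsto_tsum_of_dominated_convergence bnd_summable (fun k => ?_)
      (Eventually.of_forall fun m k => ?_)
    · unfold trm
      have := ((h k.1 k.2.1 k.2.2).div_const (‖x k.2.1‖ * ‖x k.2.2‖)).const_mul
        ((1 / 2 : ℝ) ^ ((k.2.1 + 1) + (k.2.2 + 1) + (k.1 + 1)))
      simpa using this
    · rw [Real.norm_of_nonneg (trm_nonneg _ _ _ _)]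
      exact trm_le x (hT m) hS k
  simpa [dd_eq] using h0

end Pool.Agent.U815.CB
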