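import Pool.Agent.U815.CB.A

set_option autoImplicit false

open scoped NNReal
open Filter Topology

namespace Pool.Agent.U815.CB

variable {H : Type*} [NormedAddCommGroup H] [InnerProductSpace ℂ H]

/-- weakly continuous families of contractions -/
structure WF (H : Type*) [NormedAddCommGroup H] [InnerProductSpace ℂ H] where
  /-- the family -/
  op : ℝ≥0 → H →L[ℂ] H
  ctr : Ctr op
  wc : ∀ y z : H, Continuous fun t => inner ℂ (op t y) z

theorem WF.ext' {T S : WF H} (h : T.op = S.op) : T = S := by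
  cases T; cases S; simp_all

theorem approx {x : ℕ → H} (hd : DenseRange x) (y z : H) {ε : ℝ} (hε : 0 < ε) :
    ∃ i j, ∀ A : H →L[ℂ] H, ‖A‖ ≤ 2 → ‖inner ℂ (A y) z - inner ℂ (A (x i)) (x j)‖ < ε := by
  set δ : ℝ := min 1 (ε / (2 * (‖z‖ + ‖y‖ + 1) + 1)) with hδ
  have hden : 0 < 2 * (‖z‖ + ‖y‖ + 1) + 1 := by positivity
  have hδ0 : 0 < δ := lt_min one_pos (by positivity)
  have hδ1 : δ ≤ 1 := min_le_left _ _
  have hδ2 : δ * (2 * (‖z‖ + ‖y‖ + 1) + 1) ≤ ε := by
    have := min_le_right 1 (ε / (2 * (‖z‖ + ‖y‖ + 1) + 1))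
    rw [← hδ, le_div_iff₀ hden] at this
    exact this
  obtain ⟨i, hi⟩ := hd.exists_dist_lt y hδ0
  obtain ⟨j, hj⟩ := hd.exists_dist_lt z hδ0
  rw [dist_eq_norm] at hi hj
  refine ⟨i, j, fun A hA => ?_⟩
  have e : inner ℂ (A y) z - inner ℂ (A (x i)) (x j) =
      inner ℂ (A (y - x i)) z + inner ℂ (A (x i)) (z - x j) := by
    rw [map_sub, inner_sub_left, inner_sub_right]
    ring
  have hxi : ‖x i‖ ≤ ‖y‖ + δ := by
    have := norm_sub_norm_le (x i) y
    rw [norm_sub_rev] at this
    linarith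
  have h1 : ‖inner ℂ (A (y - x i)) z‖ ≤ 2 * δ * ‖z‖ := by
    refine (norm_inner_le_norm _ _).trans (mul_le_mul_of_nonneg_right ?_ (norm_nonneg _))
    refine (ContinuousLinearMap.le_opNorm _ _).trans ?_
    exact mul_le_mul hA hi.le (norm_nonneg _) (by norm_num)
  have h2 : ‖inner ℂ (A (x i)) (z - x j)‖ ≤ 2 * (‖y‖ + δ) * δ := by
    refine (norm_inner_le_norm _ _).trans (mul_le_mul ?_ hj.le (norm_nonneg _) (by positivity))
    refine (ContinuousLinearMap.le_opNorm _ _).trans ?_
    exact mul_le_mul hA hxi (norm_nonneg _) (by norm_num)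
  rw [e]
  refine (norm_add_le _ _).trans_lt ?_
  nlinarith [norm_nonneg y, norm_nonneg z]

theorem norm_sub_le_two {A B : H →L[ℂ] H} (hA : ‖A‖ ≤ 1) (hB : ‖B‖ ≤ 1) : ‖A - B‖ ≤ 2 := by
  have := norm_sub_le A B
  linarith

theorem ext_of_dense {x : ℕ → H} (hd : DenseRange x) {A B : H →L[ℂ] H} (hA : ‖A‖ ≤ 1)
    (hB : ‖B‖ ≤ 1) (h : ∀ i j, inner ℂ (A (x i)) (x j) = inner ℂ (B (x i)) (x j)) : A = B := by
  refine ContinuousLinearMap.ext fun y => ext_inner_right ℂ fun z => ?_
  by_contra hne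
  have hpos : 0 < ‖inner ℂ ((A - B) y) z‖ := by
    rw [norm_pos_iff, ContinuousLinearMap.sub_apply, inner_sub_left]
    exact sub_ne_zero.2 hne
  obtain ⟨i, j, hij⟩ := approx hd y z hpos
  have h1 := hij (A - B) (norm_sub_le_two hA hB)
  have h2 : inner ℂ ((A - B) (x i)) (x j) = 0 := by
    rw [ContinuousLinearMap.sub_apply, inner_sub_left, h i j, sub_self]
  rw [h2, sub_zero] at h1
  exact lt_irrefl _ h1

/-- weak sequential completeness of the ball of operators -/
theorem weak_lim [CompleteSpace H] (T : ℕ → H →L[ℂ] H) (hT : ∀ m, ‖T m‖ ≤ 1)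
    (h : ∀ y z, CauchySeq fun m => inner ℂ (T m y) z) :
    ∃ A : H →L[ℂ] H, ‖A‖ ≤ 1 ∧ ∀ y z, Tendsto (fun m => inner ℂ (T m y) z) atTop
      (𝓝 (inner ℂ (A y) z)) := by
  choose l hl using fun y z => cauchySeq_tendsto_of_complete (h y z)
  have hbd : ∀ y z, ‖l y z‖ ≤ 1 * ‖y‖ * ‖z‖ := by
    intro y z
    refine le_of_tendsto (hl y z).norm (Eventually.of_forall fun m => ?_)
    refine (norm_inner_le_norm _ _).trans (mul_le_mul_of_nonneg_right ?_ (norm_nonneg _))
    refine (ContinuousLinearMap.le_opNorm _ _).trans ?_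
    exact mul_le_mul_of_nonneg_right (hT m) (norm_nonneg _)
  let B : H →L⋆[ℂ] H →L[ℂ] ℂ := LinearMap.mkContinuous₂
    (LinearMap.mk₂'ₛₗ (starRingEnd ℂ) (RingHom.id ℂ) l
      (fun y y' z => by
        refine tendsto_nhds_unique (hl (y + y') z) ?_
        have := (hl y z).add (hl y' z)
        simpa only [map_add, inner_add_left] using this)
      (fun c y z => by
        refine tendsto_nhds_unique (hl (c • y) z) ?_
        have := (hl y z).const_mul (starRingEnd ℂ c)
        simpa only [map_smul, inner_smul_left, smul_eq_mul] using this)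
      (fun y z z' => by
        refine tendsto_nhds_unique (hl y (z + z')) ?_
        have := (hl y z).add (hl y z')
        simpa only [inner_add_right] using this)
      (fun c y z => by
        refine tendsto_nhds_unique (hl y (c • z)) ?_
        have := (hl y z).const_mul c
        simpa only [inner_smul_right, smul_eq_mul, RingHom.id_apply] using this))
    1 hbd
  have hB : ∀ y z, B y z = l y z := fun y z => rfl
  let A : H →L[ℂ] H := InnerProductSpace.continuousLinearMapOfBilin B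
  have hA : ∀ y z, inner ℂ (A y) z = l y z := fun y z => by
    rw [← hB]
    exact InnerProductSpace.continuousLinearMapOfBilin_apply B y z
  refine ⟨A, ContinuousLinearMap.opNorm_le_bound _ zero_le_one fun y => ?_, fun y z => ?_⟩
  · have h1 : ‖A y‖ * ‖A y‖ ≤ 1 * ‖y‖ * ‖A y‖ := by
      have h2 := hbd y (A y)
      rw [← hA] at h2
      have h3 : ‖inner ℂ (A y) (A y)‖ = ‖A y‖ * ‖A y‖ := by
        rw [inner_self_eq_norm_sq_to_K]
        simp [sq]
      rwa [h3] at h2
    by_cases h0 : ‖A y‖ = 0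
    · rw [h0]; positivity
    · have hpos : 0 < ‖A y‖ := lt_of_le_of_ne (norm_nonneg _) (Ne.symm h0)
      exact le_of_mul_le_mul_right h1 hpos
  · rw [hA]
    exact hl y z

theorem wc_of_dense {x : ℕ → H} (hd : DenseRange x) {T : ℝ≥0 → H →L[ℂ] H} (hT : Ctr T)
    (h : ∀ i j, Continuous fun t => inner ℂ (T t (x i)) (x j)) (y z : H) :
    Continuous fun t => inner ℂ (T t y) z := by
  refine continuous_of_uniform_approx_of_continuous fun u hu => ?_
  obtain ⟨ε, hε, hεu⟩ := Metric.mem_uniformity_dist.1 hu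
  obtain ⟨i, j, hij⟩ := approx hd y z hε
  refine ⟨_, h i j, fun t => hεu ?_⟩
  rw [dist_eq_norm]
  exact hij (T t) ((hT t).trans (by norm_num))

variable {x : ℕ → H}

/-- the metric on the families -/
@[reducible] noncomputable def metr (hx : ∀ i, x i ≠ 0) (hd : DenseRange x) :
    MetricSpace (WF H) where
  dist T S := dd x T.op S.op
  dist_self T := dd_self x T.op
  dist_comm T S := dd_comm x T.op S.op
  dist_triangle T S R := dd_tri x T.ctr S.ctr R.ctr
  eq_of_dist_eq_zero := by
    intro T S h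
    refine WF.ext' (funext fun t => ext_of_dense hd (T.ctr t) (S.ctr t) fun i j => ?_)
    obtain ⟨n, hn⟩ := exists_nat_ge (t : ℝ≥0)
    have h1 := le_sup T.ctr S.ctr (x i) (x j) (t := t) (n := n) (hn.trans (by simp))
    have h2 := sup_le_dd hx T.ctr S.ctr n i j
    have h3 : dd x T.op S.op = 0 := h
    rw [h3, mul_zero] at h2
    have h4 : ‖inner ℂ ((T.op t - S.op t) (x i)) (x j)‖ ≤ 0 := h1.trans h2
    rw [norm_le_zero_iff, ContinuousLinearMap.sub_apply, inner_sub_left, sub_eq_zero] at h4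
    exact h4

theorem complete [CompleteSpace H] (hx : ∀ i, x i ≠ 0) (hd : DenseRange x) :
    @CompleteSpace (WF H) (metr hx hd).toPseudoMetricSpace.toUniformSpace := by
  letI := metr hx hd
  refine Metric.complete_of_cauchySeq_tendsto fun u hu => ?_
  rw [Metric.cauchySeq_iff] at hu
  have hdist : ∀ m l, dist (u m) (u l) = dd x (u m).op (u l).op := fun m l => rfl
  -- uniform Cauchy property of the matrix elements
  have key : ∀ (n i j : ℕ) (ε : ℝ), 0 < ε → ∃ N, ∀ m ≥ N, ∀ l ≥ N, ∀ t : ℝ≥0, t ≤ n + 1 →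
      ‖inner ℂ (((u m).op t - (u l).op t) (x i)) (x j)‖ < ε := by
    intro n i j ε hε
    have hc := cst_pos hx n i j
    obtain ⟨N, hN⟩ := hu (ε / cst x n i j) (by positivity)
    refine ⟨N, fun m hm l hl t ht => ?_⟩
    have h1 := le_sup (u m).ctr (u l).ctr (x i) (x j) ht
    have h2 := sup_le_dd hx (u m).ctr (u l).ctr n i j
    have h3 := hN m hm l hl
    rw [hdist, lt_div_iff₀ hc] at h3
    calc _ ≤ _ := h1
      _ ≤ _ := h2
      _ < ε := by linarith
  have hcau : ∀ (t : ℝ≥0) (y z : H), CauchySeq fun m => inner ℂ ((u m).op t y) z := by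
    intro t y z
    rw [Metric.cauchySeq_iff]
    intro ε hε
    obtain ⟨i, j, hij⟩ := approx hd y z (half_pos hε)
    obtain ⟨n, hn⟩ := exists_nat_ge (t : ℝ≥0)
    obtain ⟨N, hN⟩ := key n i j (ε / 2) (half_pos hε)
    refine ⟨N, fun m hm l hl => ?_⟩
    have h1 := hN m hm l hl t (hn.trans (by simp))
    have h2 := hij ((u m).op t - (u l).op t) (norm_sub_le_two ((u m).ctr t) ((u l).ctr t))
    rw [dist_eq_norm, ← inner_sub_left, ← ContinuousLinearMap.sub_apply]
    have h3 := norm_sub_norm_le (inner ℂ (((u m).op t - (u l).op t) y) z)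
      (inner ℂ (((u m).op t - (u l).op t) (x i)) (x j))
    linarith
  choose A hA1 hA using fun t => weak_lim (fun m => (u m).op t) (fun m => (u m).ctr t) (hcau t)
  -- uniform convergence of the matrix elements
  have unif : ∀ (n i j : ℕ) (ε : ℝ), 0 < ε → ∃ N, ∀ m ≥ N, ∀ t : ℝ≥0, t ≤ n + 1 →
      ‖inner ℂ (((u m).op t - A t) (x i)) (x j)‖ ≤ ε := by
    intro n i j ε hε
    obtain ⟨N, hN⟩ := key n i j ε hε
    refine ⟨N, fun m hm t ht => ?_⟩
    have h1 : Tendsto (fun l => ‖inner ℂ (((u m).op t - (u l).op t) (x i)) (x j)‖) atTop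
        (𝓝 ‖inner ℂ (((u m).op t - A t) (x i)) (x j)‖) := by
      have h2 := ((tendsto_const_nhds (x := inner ℂ ((u m).op t (x i)) (x j))).sub
        (hA t (x i) (x j))).norm
      simpa only [ContinuousLinearMap.sub_apply, inner_sub_left] using h2
    refine le_of_tendsto h1 ?_
    filter_upwards [eventually_ge_atTop N] with l hl
    exact (hN m hm l hl t ht).le
  have hwc : ∀ y z : H, Continuous fun t => inner ℂ (A t y) z := by
    refine wc_of_dense hd hA1 fun i j => ?_
    have hloc : TendstoLocallyUniformly (fun m t => inner ℂ ((u m).op t (x i)) (x j))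
        (fun t => inner ℂ (A t (x i)) (x j)) atTop := by
      rw [Metric.tendstoLocallyUniformly_iff]
      intro ε hε t
      obtain ⟨n, hn⟩ := exists_nat_ge (t : ℝ≥0)
      refine ⟨Set.Iio (n + 1), Iio_mem_nhds (lt_of_le_of_lt hn (by
        exact_mod_cast Nat.lt_succ_self n)), ?_⟩
      obtain ⟨N, hN⟩ := unif n i j (ε / 2) (half_pos hε)
      filter_upwards [eventually_ge_atTop N] with m hm s hs
      rw [dist_comm, dist_eq_norm, ← inner_sub_left, ← ContinuousLinearMap.sub_apply]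
      exact (hN m hm s (le_of_lt hs)).trans_lt (by linarith)
    exact hloc.continuous (Frequently.of_forall fun m => (u m).wc (x i) (x j))
  refine ⟨⟨A, hA1, hwc⟩, ?_⟩
  rw [tendsto_iff_dist_tendsto_zero]
  refine tendsto_dd x (fun m => (u m).ctr) hA1 fun n i j => ?_
  rw [Metric.tendsto_atTop]
  intro ε hε
  obtain ⟨N, hN⟩ := unif n i j (ε / 2) (half_pos hε)
  refine ⟨N, fun m hm => ?_⟩
  rw [Real.dist_eq, sub_zero, abs_of_nonneg (sup_nonneg _ _ _ _ _)]
  exact (sup_le fun t ht => hN m hm t ht).trans_lt (by linarith)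

end Pool.Agent.U815.CB
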