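import Pool.Agent.U815.CB.B

set_option autoImplicit false

open scoped NNReal
open Filter Topology

namespace Pool.Agent.U815.CB

section top

variable {X ι : Type*} [TopologicalSpace X]

/-- the set where a pointwise limit of continuous functions agrees with a continuous function -/
theorem gdelta_eq [Countable ι] {f : Finset ι → X → ℂ} {g h : X → ℂ}
    (hf : ∀ F, Continuous (f F)) (hg : Continuous g)
    (hl : ∀ p, Tendsto (fun F => f F p) atTop (𝓝 (h p))) : IsGδ {p | h p = g p} := by
  have e : {p | h p = g p} = ⋂ r : ℕ, ⋂ F₀ : Finset ι,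
      ⋃ F : {F : Finset ι // F₀ ≤ F}, {p | dist (f F p) (g p) < 1 / ((r : ℝ) + 1)} := by
    ext p
    simp only [Set.mem_setOf_eq, Set.mem_iInter, Set.mem_iUnion]
    constructor
    · intro hp r F₀
      have h1 := (hl p).eventually (Metric.ball_mem_nhds _ (Nat.one_div_pos_of_nat (n := r)))
      obtain ⟨F, hF, hF'⟩ := (h1.and (eventually_ge_atTop F₀)).exists
      refine ⟨⟨F, hF'⟩, ?_⟩
      rw [hp] at hF
      exact hF
    · intro H
      by_contra hne
      have hpos : 0 < dist (h p) (g p) := dist_pos.2 hne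
      obtain ⟨r, hr⟩ := exists_nat_one_div_lt (half_pos hpos)
      have h1 := (hl p).eventually (Metric.ball_mem_nhds _ (half_pos hpos))
      obtain ⟨F₀, hF₀⟩ := eventually_atTop.1 h1
      obtain ⟨⟨F, hF⟩, h2⟩ := H r F₀
      have h3 : dist (f F p) (h p) < dist (h p) (g p) / 2 := hF₀ F hF
      have h4 := dist_triangle_left (h p) (g p) (f F p)
      linarith
  rw [e]
  refine IsGδ.iInter fun r => IsGδ.iInter fun F₀ => IsOpen.isGδ ?_
  exact isOpen_iUnion fun F => isOpen_lt ((hf _).dist hg) continuous_const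

/-- a space embedded in a complete metric space with a G-delta range is completely metrizable -/
theorem completely_metrizable {Y : Type*} [MetricSpace Y] [CompleteSpace Y] {e : X → Y}
    (he : IsEmbedding e) (hG : IsGδ (Set.range e)) :
    TopologicalSpace.IsCompletelyMetrizableSpace X := by
  obtain ⟨U, hU, hUe⟩ := hG.eq_iInter_nat
  let O : ℕ → TopologicalSpace.Opens Y := fun n => ⟨U n, hU n⟩
  have hmem : ∀ p n, e p ∈ O n := by
    intro p n
    have : e p ∈ Set.range e := ⟨p, rfl⟩
    rw [hUe, Set.mem_iInter] at this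
    exact this n
  let f : X → ∀ n, TopologicalSpace.Opens.CompleteCopy (O n) := fun p n => ⟨e p, hmem p n⟩
  have hval : ∀ n, Continuous fun g : ∀ n, TopologicalSpace.Opens.CompleteCopy (O n) =>
      (g n).1 := fun n => continuous_subtype_val.comp (continuous_apply n)
  have hfc : Continuous f := continuous_pi fun n => he.continuous.subtype_mk (hmem · n)
  have hemb : IsEmbedding f := by
    refine IsEmbedding.of_comp hfc (hval 0) ?_
    exact he
  have hcl : IsClosed (Set.range f) := by
    have : Set.range f = ⋂ n, {g | (g n).1 = (g 0).1} := by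
      ext g
      simp only [Set.mem_range, Set.mem_iInter, Set.mem_setOf_eq]
      constructor
      · rintro ⟨p, rfl⟩ n
        rfl
      · intro hg
        have h0 : (g 0).1 ∈ Set.range e := by
          rw [hUe, Set.mem_iInter]
          intro n
          rw [← hg n]
          exact (g n).2
        obtain ⟨p, hp⟩ := h0
        refine ⟨p, funext fun n => Subtype.ext ?_⟩
        rw [hg n, ← hp]
    rw [this]
    exact isClosed_iInter fun n => isClosed_eq (hval n) (hval 0)
  exact (IsClosedEmbedding.mk hemb hcl).IsCompletelyMetrizableSpace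

end top

variable {H : Type*} [NormedAddCommGroup H] [InnerProductSpace ℂ H] {x : ℕ → H}

theorem cont_inner (hx : ∀ i, x i ≠ 0) (hd : DenseRange x) (t : ℝ≥0) (y z : H) :
    @Continuous (WF H) ℂ (metr hx hd).toPseudoMetricSpace.toUniformSpace.toTopologicalSpace _
      (fun T => inner ℂ (T.op t y) z) := by
  letI := metr hx hd
  have h0 : ∀ i j, Continuous fun T : WF H => inner ℂ (T.op t (x i)) (x j) := by
    intro i j
    obtain ⟨n, hn⟩ := exists_nat_ge t
    rw [Metric.continuous_iff]
    intro S ε hε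
    have hc := cst_pos hx n i j
    refine ⟨ε / cst x n i j, by positivity, fun T hT => ?_⟩
    rw [dist_eq_norm, ← inner_sub_left, ← ContinuousLinearMap.sub_apply]
    have h1 := le_sup T.ctr S.ctr (x i) (x j) (t := t) (n := n) (hn.trans (by simp))
    have h2 := sup_le_dd hx T.ctr S.ctr n i j
    have h3 : dd x T.op S.op < ε / cst x n i j := hT
    rw [lt_div_iff₀ hc] at h3
    calc _ ≤ _ := h1
      _ ≤ _ := h2
      _ < ε := by linarith
  refine continuous_of_uniform_approx_of_continuous fun u hu => ?_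
  obtain ⟨ε, hε, hεu⟩ := Metric.mem_uniformity_dist.1 hu
  obtain ⟨i, j, hij⟩ := approx hd y z hε
  refine ⟨_, h0 i j, fun T => hεu ?_⟩
  rw [dist_eq_norm]
  exact hij (T.op t) ((T.ctr t).trans (by norm_num))

/-- a separable Hilbert space has a countable orthonormal basis -/
theorem exists_basis [CompleteSpace H] [TopologicalSpace.SeparableSpace H] :
    ∃ w : Set H, ∃ _ : HilbertBasis w ℂ H, Countable w := by
  obtain ⟨w, b, hb⟩ := exists_hilbertBasis ℂ H
  refine ⟨w, b, ?_⟩
  have hon : Orthonormal ℂ ((↑) : w → H) := by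
    rw [← hb]
    exact b.orthonormal
  rw [Set.countable_coe_iff]
  refine Set.PairwiseDisjoint.countable_of_isOpen (s := fun v : H => Metric.ball v (1 / 2)) ?_
    (fun _ _ => Metric.isOpen_ball) (fun v _ => ⟨v, Metric.mem_ball_self (by norm_num)⟩)
  intro v hv u hu hne
  refine Metric.ball_disjoint_ball ?_
  have h1 : ‖v‖ = 1 := hon.1 ⟨v, hv⟩
  have h2 : ‖u‖ = 1 := hon.1 ⟨u, hu⟩
  have h3 : inner ℂ v u = 0 := hon.2 (i := ⟨v, hv⟩) (j := ⟨u, hu⟩) (by
    intro h
    exact hne (congrArg Subtype.val h))
  have h4 := norm_sub_sq (𝕜 := ℂ) v u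
  rw [h3, h1, h2] at h4
  simp only [map_zero, mul_zero, sub_zero] at h4
  rw [dist_eq_norm]
  nlinarith [norm_nonneg (v - u)]

/-- the conditions on a countable dense set of times and vectors -/
def good (x : ℕ → H) (q : ℕ → ℝ≥0) : Set (WF H) :=
  (⋂ k : ℕ × ℕ, {T | inner ℂ (T.op 0 (x k.1)) (x k.2) = inner ℂ (x k.1) (x k.2)}) ∩
    ⋂ a : ℕ × ℕ, ⋂ k : ℕ × ℕ, {T | inner ℂ (T.op (q a.1) (T.op (q a.2) (x k.1))) (x k.2) =
      inner ℂ (T.op (q a.1 + q a.2) (x k.1)) (x k.2)}

theorem good_gdelta [CompleteSpace H] [TopologicalSpace.SeparableSpace H] (hx : ∀ i, x i ≠ 0)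
    (hd : DenseRange x) (q : ℕ → ℝ≥0) :
    @IsGδ (WF H) (metr hx hd).toPseudoMetricSpace.toUniformSpace.toTopologicalSpace
      (good x q) := by
  letI := metr hx hd
  obtain ⟨w, b, hw⟩ := exists_basis (H := H)
  have hc : ∀ t y z, Continuous fun T : WF H => inner ℂ (T.op t y) z := cont_inner hx hd
  refine IsGδ.inter (IsGδ.iInter fun k => ?_) (IsGδ.iInter fun a => IsGδ.iInter fun k => ?_)
  · exact (isClosed_eq (hc 0 (x k.1) (x k.2)) continuous_const).isGδ
  · refine gdelta_eq (ι := w)
      (f := fun F T => ∑ v ∈ F, inner ℂ (T.op (q a.2) (x k.1)) (b v) *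
        inner ℂ (T.op (q a.1) (b v)) (x k.2)) (fun F => ?_) (hc _ _ _) (fun T => ?_)
    · exact continuous_finset_sum _ fun v _ => (hc _ _ _).mul (hc _ _ _)
    · have h := b.hasSum_inner_mul_inner (T.op (q a.2) (x k.1))
        (ContinuousLinearMap.adjoint (T.op (q a.1)) (x k.2))
      simp only [ContinuousLinearMap.adjoint_inner_right] at h
      exact h

theorem mem_good_iff (hd : DenseRange x) {q : ℕ → ℝ≥0} (hq : DenseRange q) [CompleteSpace H]
    (T : WF H) :
    T ∈ good x q ↔ T.op 0 = 1 ∧ ∀ t s : ℝ≥0, T.op (t + s) = T.op t * T.op s := by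
  simp only [good, Set.mem_inter_iff, Set.mem_iInter, Set.mem_setOf_eq]
  constructor
  · rintro ⟨h0, h1⟩
    have h2 : ∀ a b, T.op (q a + q b) = T.op (q a) * T.op (q b) := by
      intro a b
      refine ext_of_dense hd (T.ctr _) ?_ fun i j => ?_
      · refine (norm_mul_le _ _).trans ?_
        exact mul_le_one₀ (T.ctr _) (norm_nonneg _) (T.ctr _)
      · exact (h1 (a, b) (i, j)).symm
    have h3 : ∀ (t : ℝ≥0) (b : ℕ), T.op (t + q b) = T.op t * T.op (q b) := by
      intro t b
      refine ContinuousLinearMap.ext fun y => ext_inner_right ℂ fun z => ?_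
      have e : (fun t : ℝ≥0 => inner ℂ (T.op (t + q b) y) z) =
          fun t => inner ℂ (T.op t (T.op (q b) y)) z := by
        refine hq.equalizer ?_ (T.wc _ _) ?_
        · exact (T.wc y z).comp (continuous_id.add continuous_const)
        · funext a
          simp only [Function.comp_apply, h2]
          rfl
      exact congrFun e t
    refine ⟨ext_of_dense hd (T.ctr _) ContinuousLinearMap.norm_id_le fun i j => h0 (i, j),
      fun t s => ?_⟩
    refine ContinuousLinearMap.ext fun y => ext_inner_right ℂ fun z => ?_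
    have e : (fun s : ℝ≥0 => inner ℂ (T.op (t + s) y) z) =
        fun s => inner ℂ (T.op s y) (ContinuousLinearMap.adjoint (T.op t) z) := by
      refine hq.equalizer ?_ (T.wc _ _) ?_
      · exact (T.wc y z).comp (continuous_const.add continuous_id)
      · funext a
        simp only [Function.comp_apply, h3, ContinuousLinearMap.adjoint_inner_right]
        rfl
    have e2 := congrFun e s
    simp only [ContinuousLinearMap.adjoint_inner_right] at e2
    exact e2
  · rintro ⟨h0, h1⟩
    refine ⟨fun k => by rw [h0]; rfl, fun a k => by rw [h1]; rfl⟩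

/-- a weakly continuous contraction semigroup is strongly continuous -/
theorem strong {T : WF H} (h0 : T.op 0 = 1) (h1 : ∀ t s : ℝ≥0, T.op (t + s) = T.op t * T.op s)
    (y : H) : Continuous fun t => T.op t y := by
  rw [continuous_iff_continuousAt]
  intro s
  have hsq : ∀ r : ℝ≥0, ‖T.op r y - y‖ ^ 2 ≤
      2 * ‖y‖ ^ 2 - 2 * (inner ℂ (T.op r y) y).re := by
    intro r
    have h2 := norm_sub_sq (𝕜 := ℂ) (T.op r y) y
    have h3 : ‖T.op r y‖ ≤ ‖y‖ := by
      have := (T.op r).le_of_opNorm_le (T.ctr r) y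
      simpa using this
    have h4 : ‖T.op r y‖ ^ 2 ≤ ‖y‖ ^ 2 := pow_le_pow_left₀ (norm_nonneg _) h3 2
    have h5 : RCLike.re (inner ℂ (T.op r y) y) = (inner ℂ (T.op r y) y).re := rfl
    rw [h5] at h2
    linarith
  have hle : ∀ t r : ℝ≥0, ‖T.op (t + r) y - T.op t y‖ ≤ ‖T.op r y - y‖ := by
    intro t r
    have h2 : T.op (t + r) y - T.op t y = T.op t (T.op r y - y) := by
      rw [h1, map_sub]
      rfl
    rw [h2]
    have := (T.op t).le_of_opNorm_le (T.ctr t) (T.op r y - y)
    simpa using this
  have hdiff : ∀ t : ℝ≥0, ‖T.op t y - T.op s y‖ ≤ ‖T.op ((t - s) + (s - t)) y - y‖ := by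
    intro t
    rcases le_total s t with h | h
    · rw [tsub_eq_zero_of_le h, add_zero]
      have := hle s (t - s)
      rwa [add_tsub_cancel_of_le h] at this
    · rw [tsub_eq_zero_of_le h, zero_add, norm_sub_rev]
      have := hle t (s - t)
      rwa [add_tsub_cancel_of_le h] at this
  have hcont : Continuous fun t : ℝ≥0 =>
      2 * ‖y‖ ^ 2 - 2 * (inner ℂ (T.op ((t - s) + (s - t)) y) y).re := by
    refine continuous_const.sub (continuous_const.mul (Complex.continuous_re.comp ?_))
    refine (T.wc y y).comp ?_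
    exact (continuous_id.sub continuous_const).add (continuous_const.sub continuous_id)
  have hlim := hcont.tendsto s
  have hz : 2 * ‖y‖ ^ 2 - 2 * (inner ℂ (T.op ((s - s) + (s - s)) y) y).re = 0 := by
    rw [tsub_self, add_zero, h0]
    have : (inner ℂ ((1 : H →L[ℂ] H) y) y).re = ‖y‖ ^ 2 := by
      change RCLike.re (inner ℂ y y) = ‖y‖ ^ 2
      exact inner_self_eq_norm_sq y
    rw [this, sub_self]
  rw [hz] at hlim
  have hsq0 : Tendsto (fun t => ‖T.op t y - T.op s y‖ ^ 2) (𝓝 s) (𝓝 0) := by
    refine squeeze_zero (fun t => by positivity) (fun t => ?_) hlim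
    exact (pow_le_pow_left₀ (norm_nonneg _) (hdiff t) 2).trans (hsq _)
  have hn : Tendsto (fun t => ‖T.op t y - T.op s y‖) (𝓝 s) (𝓝 0) := by
    have := hsq0.sqrt
    simpa [Real.sqrt_sq (norm_nonneg _)] using this
  exact tendsto_iff_norm_sub_tendsto_zero.2 hn

/-- a semigroup as a weakly continuous family -/
def toWF (T : Sg H) : WF H where
  op := T.op
  ctr := T.norm_le
  wc y z := (T.cont y).inner continuous_const

theorem Sg.ext' {T S : Sg H} (h : T.op = S.op) : T = S := by
  cases T; cases S; simp_all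

theorem toWF_injective : Function.Injective (toWF (H := H)) := by
  intro T S h
  exact Sg.ext' (congrArg WF.op h)

theorem range_toWF [CompleteSpace H] (hd : DenseRange x) {q : ℕ → ℝ≥0} (hq : DenseRange q) :
    Set.range (toWF (H := H)) = good x q := by
  ext T
  rw [mem_good_iff hd hq]
  constructor
  · rintro ⟨S, rfl⟩
    exact ⟨S.op_zero, S.op_add⟩
  · rintro ⟨h0, h1⟩
    exact ⟨⟨T.op, h0, h1, strong h0 h1, T.ctr⟩, rfl⟩

/-- the metric on the space of contraction semigroups -/
@[reducible] noncomputable def sgMetr (hx : ∀ i, x i ≠ 0) (hd : DenseRange x) :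
    MetricSpace (Sg H) :=
  letI := metr hx hd
  MetricSpace.induced toWF toWF_injective inferInstance

theorem main [CompleteSpace H] [TopologicalSpace.SeparableSpace H] (hx : ∀ i, x i ≠ 0)
    (hd : DenseRange x) :
    @TopologicalSpace.IsCompletelyMetrizableSpace (Sg H)
      (sgMetr hx hd).toPseudoMetricSpace.toUniformSpace.toTopologicalSpace := by
  letI := metr hx hd
  haveI := complete hx hd
  letI := sgMetr hx hd
  have hiso : Isometry (toWF (H := H)) := Isometry.of_dist_eq fun _ _ => rfl
  refine completely_metrizable hiso.isEmbedding ?_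
  rw [range_toWF hd (TopologicalSpace.denseRange_denseSeq ℝ≥0)]
  exact good_gdelta hx hd _

end Pool.Agent.U815.CB
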