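import Pool.Agent.U815.CB.C

set_option autoImplicit false

open scoped NNReal
open Filter Topology

namespace Pool.Agent.U815.CB

variable {H : Type*} [NormedAddCommGroup H] [InnerProductSpace ℂ H] {x : ℕ → H}

theorem tendsto_dd' (x : ℕ → H) {α : Type*} {l : Filter α} {T : α → ℝ≥0 → H →L[ℂ] H}
    {S : ℝ≥0 → H →L[ℂ] H} (hT : ∀ m, Ctr (T m)) (hS : Ctr S)
    (h : ∀ n i j, Tendsto (fun m => supInner n (x i) (x j) (T m) S) l (𝓝 0)) :
    Tendsto (fun m => dd x (T m) S) l (𝓝 0) := by
  have h0 : Tendsto (fun m => ∑' k, trm x (T m) S k) l (𝓝 (∑' _ : ℕ × ℕ × ℕ, (0 : ℝ))) := by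
    refine tendsto_tsum_of_dominated_convergence bnd_summable (fun k => ?_)
      (Eventually.of_forall fun m k => ?_)
    · unfold trm
      have := ((h k.1 k.2.1 k.2.2).div_const (‖x k.2.1‖ * ‖x k.2.2‖)).const_mul
        ((1 / 2 : ℝ) ^ ((k.2.1 + 1) + (k.2.2 + 1) + (k.1 + 1)))
      simpa using this
    · rw [Real.norm_of_nonneg (trm_nonneg _ _ _ _)]
      exact trm_le x (hT m) hS k
  simpa [dd_eq] using h0

/-- the matrix elements of a weakly continuous family -/
noncomputable def mat (x : ℕ → H) (T : WF H) (k : ℕ × ℕ) : C(ℝ≥0, ℂ) :=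
  ⟨fun t => inner ℂ (T.op t (x k.1)) (x k.2), T.wc _ _⟩

theorem mat_inducing (hx : ∀ i, x i ≠ 0) (hd : DenseRange x) :
    @IsInducing (WF H) (ℕ × ℕ → C(ℝ≥0, ℂ))
      (metr hx hd).toPseudoMetricSpace.toUniformSpace.toTopologicalSpace _ (mat x) := by
  letI := metr hx hd
  rw [isInducing_iff_nhds]
  intro T
  refine le_antisymm ?_ ?_
  · rw [← tendsto_iff_comap]
    rw [tendsto_pi_nhds]
    rintro ⟨i, j⟩
    rw [ContinuousMap.tendsto_iff_tendstoLocallyUniformly, Metric.tendstoLocallyUniformly_iff]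
    intro ε hε t
    obtain ⟨n, hn⟩ := exists_nat_ge (t : ℝ≥0)
    refine ⟨Set.Iio (n + 1), Iio_mem_nhds (lt_of_le_of_lt hn (by
      exact_mod_cast Nat.lt_succ_self n)), ?_⟩
    have hc := cst_pos hx n i j
    filter_upwards [Metric.ball_mem_nhds T (show 0 < ε / cst x n i j by positivity)]
      with S hS s hs
    have h1 := le_sup S.ctr T.ctr (x i) (x j) (t := s) (n := n) (le_of_lt hs)
    have h2 := sup_le_dd hx S.ctr T.ctr n i j
    have h3 : dd x S.op T.op < ε / cst x n i j := hS
    rw [lt_div_iff₀ hc] at h3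
    rw [dist_comm, dist_eq_norm]
    change ‖inner ℂ (S.op s (x i)) (x j) - inner ℂ (T.op s (x i)) (x j)‖ < ε
    rw [← inner_sub_left, ← ContinuousLinearMap.sub_apply]
    calc _ ≤ _ := h1
      _ ≤ _ := h2
      _ < ε := by linarith
  · change Tendsto id (comap (mat x) (𝓝 (mat x T))) (𝓝 T)
    rw [tendsto_iff_dist_tendsto_zero]
    refine tendsto_dd' x (fun S => S.ctr) T.ctr fun n i j => ?_
    have h1 : Tendsto (fun S : WF H => mat x S (i, j)) (comap (mat x) (𝓝 (mat x T)))
        (𝓝 (mat x T (i, j))) :=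
      ((continuous_apply (i, j)).tendsto (mat x T)).comp tendsto_comap
    rw [ContinuousMap.tendsto_iff_forall_isCompact_tendstoUniformlyOn] at h1
    have h2 := h1 (Set.Icc 0 (n + 1)) isCompact_Icc
    rw [Metric.tendstoUniformlyOn_iff] at h2
    rw [Metric.tendsto_nhds]
    intro ε hε
    filter_upwards [h2 (ε / 2) (half_pos hε)] with S hS
    rw [Real.dist_eq, sub_zero, abs_of_nonneg (sup_nonneg _ _ _ _ _)]
    refine (sup_le fun t ht => ?_).trans_lt (half_lt_self hε)
    have h3 := hS t ⟨bot_le, ht⟩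
    rw [dist_comm, dist_eq_norm] at h3
    change ‖inner ℂ (S.op t (x i)) (x j) - inner ℂ (T.op t (x i)) (x j)‖ < ε / 2 at h3
    rw [← inner_sub_left, ← ContinuousLinearMap.sub_apply] at h3
    exact h3.le

theorem polish [CompleteSpace H] [TopologicalSpace.SeparableSpace H] (hx : ∀ i, x i ≠ 0)
    (hd : DenseRange x) :
    @PolishSpace (Sg H)
      (sgMetr hx hd).toPseudoMetricSpace.toUniformSpace.toTopologicalSpace := by
  letI := metr hx hd
  letI := sgMetr hx hd
  haveI : TopologicalSpace.IsCompletelyMetrizableSpace (Sg H) := main hx hd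
  haveI : SecondCountableTopology (WF H) := (mat_inducing hx hd).secondCountableTopology
  have hiso : Isometry (toWF (H := H)) := Isometry.of_dist_eq fun _ _ => rfl
  haveI : SecondCountableTopology (Sg H) := hiso.isEmbedding.secondCountableTopology
  infer_instance

end Pool.Agent.U815.CB
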