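import Mathlib

/-!
# Contraction semigroups with the metric of weak convergence, uniform on compact time intervals
-/

set_option autoImplicit false

open scoped NNReal

namespace Pool.Agent.U815.CB

/-- A contraction `C₀`-semigroup on the Hilbert space `H`. -/
structure Sg (H : Type*) [NormedAddCommGroup H] [InnerProductSpace ℂ H] where
  /-- the operator at time `t ≥ 0` -/
  op : ℝ≥0 → H →L[ℂ] H
  op_zero : op 0 = 1
  op_add : ∀ t s : ℝ≥0, op (t + s) = op t * op s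
  cont : ∀ x : H, Continuous fun t => op t x
  norm_le : ∀ t, ‖op t‖ ≤ 1

variable {H : Type*} [NormedAddCommGroup H] [InnerProductSpace ℂ H]

/-- The supremum over `0 ≤ t ≤ n + 1` of `|⟨(T(t) - S(t)) y, z⟩|`. -/
noncomputable def supInner (n : ℕ) (y z : H) (T S : ℝ≥0 → H →L[ℂ] H) : ℝ :=
  ⨆ t : {t : ℝ≥0 // t ≤ n + 1}, ‖inner ℂ ((T t - S t) y) z‖

/-- The distance `d(T, S)` belonging to a sequence `x` of vectors: the indices `n, i, j ≥ 1` of the
definition are the numbers `k.1 + 1`, `k.2.1 + 1`, `k.2.2 + 1`, and `x i` is the vector `x_{i+1}`. -/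
noncomputable def dd (x : ℕ → H) (T S : ℝ≥0 → H →L[ℂ] H) : ℝ :=
  ∑' k : ℕ × ℕ × ℕ, (1 / 2 : ℝ) ^ ((k.2.1 + 1) + (k.2.2 + 1) + (k.1 + 1)) *
    (supInner k.1 (x k.2.1) (x k.2.2) T S / (‖x k.2.1‖ * ‖x k.2.2‖))

end Pool.Agent.U815.CB
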